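import Mathlib

/-!
A free filter on the natural numbers that is neither poor nor conglomerated.

Outline. Take an uncountable independent family `X i`, a filter `G` that is maximal among the
free filters keeping all Boolean cells of the family positive, an ultrafilter `V` extending `G`,
and for every index `i` an ultrafilter `U i` that agrees with `V` on all sets not depending on
the index `i` and disagrees with `V` on `X i`. Every set depends on countably many indices only.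
The intersection of the `U i` is the required filter.
-/

open Filter Set

namespace Pool.Agent.P.MP_78c350_an

/-- The trace of a set on an initial segment. -/
noncomputable def tr (n : ℕ) (A : Set ℕ) : Finset ℕ := by
  classical exact (Finset.range n).filter (· ∈ A)

lemma tr_ne {A B : Set ℕ} (h : A ≠ B) : ∀ᶠ n in atTop, tr n A ≠ tr n B := by
  classical
  obtain ⟨k, hk⟩ : ∃ k, ¬ (k ∈ A ↔ k ∈ B) := by
    by_contra hc
    push Not at hc
    exact h (Set.ext hc)
  filter_upwards [eventually_gt_atTop k] with n hn he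
  apply hk
  have : k ∈ tr n A ↔ k ∈ tr n B := by rw [he]
  simpa [tr, hn] using this

instance instUncountableSetNat : Uncountable (Set ℕ) := by
  rw [← Cardinal.aleph0_lt_mk_iff, Cardinal.mk_set, Cardinal.mk_nat]
  exact Cardinal.cantor _

/-- An uncountable almost disjoint family of infinite sets. -/
lemma exists_ad : ∃ M : Set ℕ → Set ℕ, (∀ t, (M t).Infinite) ∧
    ∀ s t, s ≠ t → (M s ∩ M t).Finite := by
  classical
  let e : ℕ × Finset ℕ → ℕ := Encodable.encode
  have he : Function.Injective e := Encodable.encode_injective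
  refine ⟨fun t => range fun n => e (n, tr n t), fun t => ?_, fun s t hst => ?_⟩
  · apply infinite_range_of_injective
    intro m n hmn
    exact (Prod.mk.inj (he hmn)).1
  · obtain ⟨N, hN⟩ := eventually_atTop.1 (tr_ne hst)
    refine ((Set.finite_lt_nat N).image fun n => e (n, tr n s)).subset ?_
    rintro x ⟨⟨m, rfl⟩, ⟨n, hn⟩⟩
    have h1 := Prod.mk.inj (he hn)
    obtain ⟨rfl, h2⟩ := h1
    refine ⟨n, ?_, rfl⟩
    by_contra hc
    exact hN n (not_lt.1 hc) h2.symm

section Cells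

variable {I : Type} (X : I → Set ℕ)

/-- A literal: a member of the family or its complement. -/
def lit (p : I × Bool) : Set ℕ := if p.2 = true then X p.1 else (X p.1)ᶜ

/-- A Boolean cell. -/
def cell (h : Finset (I × Bool)) : Set ℕ := ⋂ p ∈ h, lit X p

/-- Consistency of a finite set of literals. -/
def Cons (h : Finset (I × Bool)) : Prop := ∀ i, (i, true) ∈ h → (i, false) ∉ h

variable {X}

lemma mem_cell {h : Finset (I × Bool)} {n : ℕ} : n ∈ cell X h ↔ ∀ p ∈ h, n ∈ lit X p := by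
  simp [cell]

lemma cell_anti {h h' : Finset (I × Bool)} (hh : h ⊆ h') : cell X h' ⊆ cell X h :=
  fun _ hn => mem_cell.2 fun p hp => mem_cell.1 hn p (hh hp)

lemma cons_of_mem {h : Finset (I × Bool)} {n : ℕ} (hn : n ∈ cell X h) : Cons h := by
  intro i h1 h2
  have a := mem_cell.1 hn _ h1
  have b := mem_cell.1 hn _ h2
  simp [lit] at a b
  exact b a

lemma mem_cell_union [DecidableEq I] {h h' : Finset (I × Bool)} {n : ℕ} :
    n ∈ cell X (h ∪ h') ↔ n ∈ cell X h ∧ n ∈ cell X h' := by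
  simp only [mem_cell, Finset.mem_union]
  exact ⟨fun H => ⟨fun p hp => H p (Or.inl hp), fun p hp => H p (Or.inr hp)⟩,
    fun H p hp => hp.elim (H.1 p) (H.2 p)⟩

lemma lit_not (i : I) (b : Bool) : lit X (i, !b) = (lit X (i, b))ᶜ := by
  cases b <;> simp [lit]

end Cells

/-- An uncountable independent family. -/
lemma exists_indep : ∃ X : Set ℕ → Set ℕ, ∀ h, Cons h → (cell X h).Infinite := by
  classical
  let e : ℕ ≃ ℕ × Finset (Finset ℕ) := (Denumerable.eqv _).symm
  refine ⟨fun A => {k | tr (e k).1 A ∈ (e k).2}, fun h hh => ?_⟩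
  have hev : ∀ᶠ n in atTop, ∀ p ∈ h, ∀ q ∈ h, p.1 ≠ q.1 → tr n p.1 ≠ tr n q.1 := by
    rw [Filter.eventually_all_finset]
    intro p _
    rw [Filter.eventually_all_finset]
    intro q _
    by_cases hpq : p.1 = q.1
    · exact Eventually.of_forall fun n hn => (hn hpq).elim
    · exact (tr_ne hpq).mono fun n hn _ => hn
  obtain ⟨N, hN⟩ := eventually_atTop.1 hev
  let f : ℕ → ℕ := fun n =>
    e.symm (n + N, (h.filter fun p => p.2 = true).image fun p => tr (n + N) p.1)
  have hf : Function.Injective f := by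
    intro m n hmn
    have := (Prod.mk.inj (e.symm.injective hmn)).1
    omega
  refine (infinite_range_of_injective hf).mono ?_
  rintro _ ⟨n, rfl⟩
  rw [mem_cell]
  rintro ⟨A, b⟩ hp
  cases b
  · simp only [lit, f, Bool.false_eq_true, if_false, mem_compl_iff, mem_ofPred_eq,
      Equiv.apply_symm_apply, Finset.mem_image, Finset.mem_filter]
    rintro ⟨⟨B, c⟩, ⟨hq, hc⟩, hBA⟩
    simp only at hc hBA
    subst hc
    by_cases hAB : B = A
    · subst hAB
      exact hh B hq hp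
    · exact hN (n + N) (Nat.le_add_left _ _) _ hq _ hp hAB hBA
  · simp only [lit, f, if_true, mem_ofPred_eq,
      Equiv.apply_symm_apply, Finset.mem_image, Finset.mem_filter]
    exact ⟨(A, true), ⟨hp, rfl⟩, rfl⟩

section Max

variable {I : Type} {X : I → Set ℕ}

/-- A maximal free filter keeping all consistent cells positive. -/
lemma exists_max (hX : ∀ h, Cons h → (cell X h).Infinite) :
    ∃ G : Filter ℕ, G ≤ cofinite ∧ (∀ h, Cons h → (G ⊓ 𝓟 (cell X h)).NeBot) ∧
      ∀ Y : Set ℕ, (G ⊓ 𝓟 Y).NeBot → ∃ h, Cons h ∧ Y ∈ G ⊓ 𝓟 (cell X h) := by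
  let s : Set (Filter ℕ)ᵒᵈ := {G | OrderDual.ofDual G ≤ cofinite ∧
    ∀ h, Cons h → (OrderDual.ofDual G ⊓ 𝓟 (cell X h)).NeBot}
  have h0 : OrderDual.toDual (cofinite : Filter ℕ) ∈ s := by
    refine ⟨le_rfl, fun h hh => ?_⟩
    exact (hX h hh).cofinite_inf_principal_neBot
  obtain ⟨m, -, hm⟩ := zorn_le_nonempty₀ s (fun c hcs hc y hy => by
    let c' : Set (Filter ℕ) := OrderDual.ofDual '' c
    have hdir : DirectedOn (· ≥ ·) c' := by
      rintro _ ⟨a, ha, rfl⟩ _ ⟨b, hb, rfl⟩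
      rcases hc.total ha hb with hab | hab
      · exact ⟨_, ⟨b, hb, rfl⟩, hab, le_rfl⟩
      · exact ⟨_, ⟨a, ha, rfl⟩, le_rfl, hab⟩
    refine ⟨OrderDual.toDual (sInf c'), ⟨?_, fun h hh => ?_⟩, fun z hz => ?_⟩
    · exact (sInf_le (show OrderDual.ofDual y ∈ c' from ⟨y, hy, rfl⟩)).trans (hcs hy).1
    · rw [Filter.inf_principal_neBot_iff]
      intro U hU
      have hU' : U ∈ ⨅ F ∈ c', id F := by
        have : sInf c' = ⨅ F ∈ c', id F := sInf_eq_iInf
        rw [← this]; exact hU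
      rw [mem_biInf_of_directed (f := id) hdir ⟨_, ⟨y, hy, rfl⟩⟩] at hU'
      obtain ⟨_, ⟨a, ha, rfl⟩, hUa⟩ := hU'
      exact Filter.inf_principal_neBot_iff.1 ((hcs ha).2 h hh) U hUa
    · exact (sInf_le (show OrderDual.ofDual z ∈ c' from ⟨z, hz, rfl⟩) :
        sInf c' ≤ OrderDual.ofDual z)) _ h0
  refine ⟨OrderDual.ofDual m, hm.prop.1, hm.prop.2, fun Y hY => ?_⟩
  by_contra hc
  push Not at hc
  have h1 : OrderDual.toDual (OrderDual.ofDual m ⊓ 𝓟 Yᶜ) ∈ s := by
    refine ⟨inf_le_left.trans hm.prop.1, fun h hh => ?_⟩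
    have h2 := hc h hh
    refine ⟨fun h3 => h2 ?_⟩
    have h4 : (OrderDual.ofDual m ⊓ 𝓟 (cell X h)) ⊓ 𝓟 Yᶜ = ⊥ := by
      rw [inf_right_comm]; exact h3
    simpa using Filter.inf_principal_eq_bot.1 h4
  have h2 : OrderDual.ofDual m ≤ OrderDual.ofDual m ⊓ 𝓟 Yᶜ :=
    hm.le_of_ge h1 (inf_le_left : OrderDual.ofDual m ⊓ 𝓟 Yᶜ ≤ OrderDual.ofDual m)
  have h3 : Yᶜ ∈ OrderDual.ofDual m := le_principal_iff.1 (h2.trans inf_le_right)
  exact hY.ne (Filter.inf_principal_eq_bot.2 h3)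

variable (X) in
/-- The cell of `h` decides `Y` modulo `G`. -/
def Dec (G : Filter ℕ) (h : Finset (I × Bool)) (Y : Set ℕ) : Prop :=
  Y ∈ G ⊓ 𝓟 (cell X h) ∨ Yᶜ ∈ G ⊓ 𝓟 (cell X h)

/-- The index `i` does not occur in `h`. -/
def Avoid (i : I) (h : Finset (I × Bool)) : Prop := ∀ p ∈ h, p.1 ≠ i

variable (X) in
/-- `Y` does not depend on the index `i`. -/
def Indep (G : Filter ℕ) (i : I) (Y : Set ℕ) : Prop :=
  ∀ h₀, Cons h₀ → Avoid i h₀ → ∃ h, h₀ ⊆ h ∧ Cons h ∧ Avoid i h ∧ Dec X G h Y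

variable {G : Filter ℕ}

lemma le_of_subset {h h' : Finset (I × Bool)} (hh : h ⊆ h') :
    G ⊓ 𝓟 (cell X h') ≤ G ⊓ 𝓟 (cell X h) :=
  inf_le_inf_left _ (principal_mono.2 (cell_anti hh))

lemma Dec.mono {h h' : Finset (I × Bool)} {Y : Set ℕ} (hd : Dec X G h Y) (hh : h ⊆ h') :
    Dec X G h' Y :=
  hd.imp (fun H => le_of_subset hh H) (fun H => le_of_subset hh H)

lemma Dec.compl {h : Finset (I × Bool)} {Y : Set ℕ} (hd : Dec X G h Y) : Dec X G h Yᶜ := by
  rcases hd with hd | hd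
  · right; simpa using hd
  · left; exact hd

lemma Dec.inter {h : Finset (I × Bool)} {Y Z : Set ℕ} (hY : Dec X G h Y) (hZ : Dec X G h Z) :
    Dec X G h (Y ∩ Z) := by
  rcases hY with hY | hY
  · rcases hZ with hZ | hZ
    · exact Or.inl (inter_mem hY hZ)
    · exact Or.inr (mem_of_superset hZ (compl_subset_compl.2 inter_subset_right))
  · exact Or.inr (mem_of_superset hY (compl_subset_compl.2 inter_subset_left))

lemma Indep.compl {i : I} {Y : Set ℕ} (hY : Indep X G i Y) : Indep X G i Yᶜ := by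
  intro h₀ h1 h2
  obtain ⟨h, a, b, c, d⟩ := hY h₀ h1 h2
  exact ⟨h, a, b, c, d.compl⟩

lemma Indep.inter {i : I} {Y Z : Set ℕ} (hY : Indep X G i Y) (hZ : Indep X G i Z) :
    Indep X G i (Y ∩ Z) := by
  intro h₀ h1 h2
  obtain ⟨h, a, b, c, d⟩ := hY h₀ h1 h2
  obtain ⟨h', a', b', c', d'⟩ := hZ h b c
  exact ⟨h', a.trans a', b', c', (d.mono a').inter d'⟩

lemma indep_of_mem {i : I} {Y : Set ℕ} (hY : Y ∈ G) : Indep X G i Y :=
  fun h₀ h1 h2 => ⟨h₀, Finset.Subset.refl _, h1, h2, Or.inl (mem_inf_of_left hY)⟩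

lemma lit_mem {h : Finset (I × Bool)} {p : I × Bool} (hp : p ∈ h) :
    lit X p ∈ G ⊓ 𝓟 (cell X h) :=
  mem_inf_of_right fun _ hn => mem_cell.1 hn p hp

lemma dec_lit {h : Finset (I × Bool)} {j : I} {b : Bool} (c : Bool) (hp : (j, b) ∈ h) :
    Dec X G h (lit X (j, c)) := by
  by_cases hbc : c = b
  · subst hbc; exact Or.inl (lit_mem hp)
  · have : b = !c := by cases b <;> cases c <;> simp_all
    subst this
    right
    rw [← lit_not]
    exact lit_mem hp

lemma cons_insert [DecidableEq I] {h : Finset (I × Bool)} {i : I} (b : Bool) (hh : Cons h)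
    (ha : Avoid i h) : Cons (insert (i, b) h) := by
  intro j h1 h2
  rw [Finset.mem_insert] at h1 h2
  rcases h1 with h1 | h1 <;> rcases h2 with h2 | h2
  · have := h1.trans h2.symm
    simp at this
  · exact ha _ h2 (Prod.mk.inj h1).1
  · exact ha _ h1 (Prod.mk.inj h2).1
  · exact hh j h1 h2

lemma indep_lit {i j : I} (hij : j ≠ i) (c : Bool) : Indep X G i (lit X (j, c)) := by
  classical
  intro h₀ h1 h2
  by_cases ha : Avoid j h₀
  · refine ⟨insert (j, true) h₀, Finset.subset_insert _ _, cons_insert _ h1 ha, ?_,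
      dec_lit c (Finset.mem_insert_self _ _)⟩
    intro p hp
    rcases Finset.mem_insert.1 hp with rfl | hp
    · exact hij
    · exact h2 p hp
  · simp only [Avoid, not_forall, not_not] at ha
    obtain ⟨⟨k, b⟩, hp, rfl⟩ := ha
    exact ⟨h₀, Finset.Subset.refl _, h1, h2, dec_lit c hp⟩

variable (hG1 : ∀ h, Cons h → (G ⊓ 𝓟 (cell X h)).NeBot)
  (hG2 : ∀ Y : Set ℕ, (G ⊓ 𝓟 Y).NeBot → ∃ h, Cons h ∧ Y ∈ G ⊓ 𝓟 (cell X h))

include hG1 hG2

/-- A positive set that does not depend on `i` meets both literals of `i`. -/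
lemma indep_meets {i : I} {Y : Set ℕ} (hY : Indep X G i Y) (hpos : (G ⊓ 𝓟 Y).NeBot) (b : Bool) :
    (Y ∩ lit X (i, b)).Nonempty := by
  classical
  obtain ⟨h, hh, hYh⟩ := hG2 Y hpos
  obtain ⟨h', hsub, hh', hav, hdec⟩ := hY (h.filter fun p => p.1 ≠ i)
    (fun j h1 h2 => hh j (Finset.mem_filter.1 h1).1 (Finset.mem_filter.1 h2).1)
    (fun p hp => (Finset.mem_filter.1 hp).2)
  have hcons : Cons (h ∪ h') := by
    intro j h1 h2
    by_cases hj : j = i
    · subst hj
      rcases Finset.mem_union.1 h1 with h1 | h1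
      · rcases Finset.mem_union.1 h2 with h2 | h2
        · exact hh _ h1 h2
        · exact hav _ h2 rfl
      · exact hav _ h1 rfl
    · have key : ∀ c, (j, c) ∈ h ∪ h' → (j, c) ∈ h' := fun c hc =>
        (Finset.mem_union.1 hc).elim (fun H => hsub (Finset.mem_filter.2 ⟨H, hj⟩)) id
      exact hh' j (key _ h1) (key _ h2)
  have hY' : Y ∈ G ⊓ 𝓟 (cell X h') := by
    rcases hdec with hd | hd
    · exact hd
    · exfalso
      have := hG1 _ hcons
      have a : Y ∈ G ⊓ 𝓟 (cell X (h ∪ h')) := le_of_subset Finset.subset_union_left hYh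
      have b : Yᶜ ∈ G ⊓ 𝓟 (cell X (h ∪ h')) := le_of_subset Finset.subset_union_right hd
      simpa using Filter.nonempty_of_mem (inter_mem a b)
  have := hG1 _ (cons_insert b hh' hav)
  exact Filter.nonempty_of_mem (f := G ⊓ 𝓟 (cell X (insert (i, b) h')))
    (inter_mem (le_of_subset (Finset.subset_insert _ _) hY') (lit_mem (Finset.mem_insert_self _ _)))

/-- Deciding conditions are dense. -/
lemma dec_dense (Y : Set ℕ) {h₀ : Finset (I × Bool)} (h0 : Cons h₀) :
    ∃ h, h₀ ⊆ h ∧ Cons h ∧ Dec X G h Y := by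
  classical
  by_cases hc : (G ⊓ 𝓟 (cell X h₀ ∩ Y)).NeBot
  · obtain ⟨h, hh, hm⟩ := hG2 _ hc
    have := hG1 _ hh
    obtain ⟨n, hn1, hn2⟩ := Filter.nonempty_of_mem (f := G ⊓ 𝓟 (cell X h))
      (inter_mem hm (mem_inf_of_right (mem_principal_self _)))
    refine ⟨h₀ ∪ h, Finset.subset_union_left, cons_of_mem (mem_cell_union.2 ⟨hn1.1, hn2⟩), ?_⟩
    exact Or.inl (le_of_subset Finset.subset_union_right (mem_of_superset hm inter_subset_right))
  · refine ⟨h₀, Finset.Subset.refl _, h0, Or.inr ?_⟩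
    rw [not_neBot, ← inf_principal, ← inf_assoc] at hc
    exact Filter.inf_principal_eq_bot.1 hc

/-- Every set depends on countably many indices only. -/
lemma countable_not_indep (Y : Set ℕ) : {i | ¬ Indep X G i Y}.Countable := by
  classical
  have hch : ∀ n : ℕ, ∃ a : Finset (I × Bool),
      (∃ h, Dec X G h Y ∧ n ∈ cell X h) → Dec X G a Y ∧ n ∈ cell X a := by
    intro n
    by_cases hn : ∃ h, Dec X G h Y ∧ n ∈ cell X h
    · obtain ⟨h, hh⟩ := hn
      exact ⟨h, fun _ => hh⟩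
    · exact ⟨∅, fun H => (hn H).elim⟩
  choose a ha using hch
  have hS : (⋃ n, Prod.fst '' (a n : Set (I × Bool))).Countable :=
    countable_iUnion fun n => ((a n).finite_toSet.image _).countable
  refine hS.mono fun i hi => ?_
  by_contra hi'
  apply hi
  intro h₀ h1 h2
  obtain ⟨h, hsub, hh, hd⟩ := dec_dense hG1 hG2 Y h1
  have := hG1 _ hh
  obtain ⟨n, hn⟩ := Filter.nonempty_of_mem (f := G ⊓ 𝓟 (cell X h))
      (mem_inf_of_right (mem_principal_self _))
  obtain ⟨hd', hn'⟩ := ha n ⟨h, hd, hn⟩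
  refine ⟨h₀ ∪ a n, Finset.subset_union_left,
    cons_of_mem (mem_cell_union.2 ⟨cell_anti hsub hn, hn'⟩), ?_,
    hd'.mono Finset.subset_union_right⟩
  intro p hp
  rcases Finset.mem_union.1 hp with hp | hp
  · exact h2 p hp
  · rintro rfl
    exact hi' (mem_iUnion.2 ⟨n, p, hp, rfl⟩)

/-- The ultrafilter attached to an index. -/
lemma exists_ultra (V : Ultrafilter ℕ) (hV : (V : Filter ℕ) ≤ G) (i : I) (b : Bool) :
    ∃ U : Ultrafilter ℕ, lit X (i, b) ∈ U ∧ ∀ Y ∈ V, Indep X G i Y → Y ∈ U := by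
  let H : Filter ℕ :=
    { sets := {Z | ∃ Y ∈ V, Indep X G i Y ∧ Y ⊆ Z}
      univ_sets := ⟨univ, univ_mem, indep_of_mem univ_mem, Subset.rfl⟩
      sets_of_superset := fun ⟨Y, h1, h2, h3⟩ h4 => ⟨Y, h1, h2, h3.trans h4⟩
      inter_sets := fun ⟨Y, h1, h2, h3⟩ ⟨Z, h4, h5, h6⟩ =>
        ⟨Y ∩ Z, inter_mem h1 h4, h2.inter h5, inter_subset_inter h3 h6⟩ }
  have hne : (H ⊓ 𝓟 (lit X (i, b))).NeBot := by
    rw [Filter.inf_principal_neBot_iff]
    rintro Z ⟨Y, h1, h2, h3⟩
    refine (indep_meets hG1 hG2 h2 ?_ b).mono (inter_subset_inter_left _ h3)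
    exact (V.neBot).mono (le_inf hV (le_principal_iff.2 h1))
  obtain ⟨U, hU⟩ := Filter.exists_ultrafilter_le (H ⊓ 𝓟 (lit X (i, b)))
  exact ⟨U, hU (mem_inf_of_right (mem_principal_self _)),
    fun Y h1 h2 => hU (mem_inf_of_left ⟨Y, h1, h2, Subset.rfl⟩)⟩

end Max

/-- An uncountable discrete family of free ultrafilters converging co-countably to an
ultrafilter. -/
lemma exists_family : ∃ (V : Ultrafilter ℕ) (U : Set ℕ → Ultrafilter ℕ) (A : Set ℕ → Set ℕ),
    (∀ i, (U i : Filter ℕ) ≤ cofinite) ∧ (∀ i, A i ∈ U i) ∧ (∀ i j, j ≠ i → (A j)ᶜ ∈ U i) ∧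
    ∀ Y ∈ V, {i | Y ∉ U i}.Countable := by
  classical
  obtain ⟨X, hX⟩ := exists_indep
  obtain ⟨G, hG0, hG1, hG2⟩ := exists_max hX
  have hGne : G.NeBot := (hG1 ∅ (fun i h => by simp at h)).mono inf_le_left
  obtain ⟨V, hV⟩ := Filter.exists_ultrafilter_le G
  have hb : ∀ j, ∃ b, (lit X (j, b))ᶜ ∈ V := by
    intro j
    rcases V.mem_or_compl_mem (lit X (j, true)) with h | h
    · refine ⟨!true, ?_⟩
      rw [lit_not, compl_compl]; exact h
    · exact ⟨true, h⟩
  choose b hb using hb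
  choose U hU1 hU2 using fun i => exists_ultra hG1 hG2 V hV i (b i)
  refine ⟨V, U, fun j => lit X (j, b j), fun i Y hY => ?_, hU1, fun i j hij => ?_, fun Y hY => ?_⟩
  · exact hU2 i Y (hV (hG0 hY)) (indep_of_mem (hG0 hY))
  · exact hU2 i _ (hb j) (indep_lit hij _).compl
  · exact (countable_not_indep hG1 hG2 Y).mono fun i hi h => hi (hU2 i Y hY h)

theorem main : ∃ F : Filter ℕ, ∅ ∉ F ∧ (∀ A : Set ℕ, Aᶜ.Finite → A ∈ F) ∧
    (¬ ∀ 𝒜 : Set (Set ℕ), (∀ A ∈ 𝒜, Aᶜ ∉ F) →
      (𝒜.Pairwise fun A B => (A ∩ B)ᶜ ∈ F) → 𝒜.Countable) ∧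
    ¬ ∃ D : ℕ → Set ℕ, (Pairwise fun m n => Disjoint (D m) (D n)) ∧ (∀ n, (D n)ᶜ ∈ F) ∧
      ∀ M : Set ℕ, M.Infinite → (⋃ n ∈ M, D n)ᶜ ∉ F := by
  obtain ⟨V, U, A, hU0, hA1, hA2, hV⟩ := exists_family
  have hmem : ∀ Y : Set ℕ, Y ∈ (⨆ i, (U i : Filter ℕ)) ↔ ∀ i, Y ∈ U i := fun Y => by
    simp [Filter.mem_iSup]
  refine ⟨⨆ i, (U i : Filter ℕ), ?_, ?_, ?_, ?_⟩
  · rw [hmem]
    intro h
    exact (U ∅).empty_notMem (h ∅)
  · intro Y hY
    rw [hmem]
    exact fun i => hU0 i hY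
  · intro h
    have hinj : Function.Injective A := by
      intro i j hij
      by_contra hne
      have h1 := hA2 j i hne
      rw [hij] at h1
      exact (Ultrafilter.compl_mem_iff_notMem.1 h1) (hA1 j)
    have hc := h (range A) ?_ ?_
    · exact not_countable_univ ((countable_of_injective_of_countable_image
        (s := univ) hinj.injOn (by simpa using hc)))
    · rintro _ ⟨i, rfl⟩ hi
      rw [hmem] at hi
      exact (Ultrafilter.compl_mem_iff_notMem.1 (hi i)) (hA1 i)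
    · rintro _ ⟨i, rfl⟩ _ ⟨j, rfl⟩ hij
      have hij' : i ≠ j := fun h => hij (h ▸ rfl)
      rw [hmem]
      intro k
      by_cases hk : i = k
      · subst hk
        exact mem_of_superset (hA2 i j hij'.symm) (compl_subset_compl.2 inter_subset_right)
      · exact mem_of_superset (hA2 k i hk) (compl_subset_compl.2 inter_subset_left)
  · rintro ⟨D, hD1, hD2, hD3⟩
    simp only [hmem] at hD2 hD3
    obtain ⟨φ, hφ, hE⟩ : ∃ φ : ℕ → ℕ, Function.Injective φ ∧ (⋃ n, D (φ n))ᶜ ∈ V := by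
      rcases V.mem_or_compl_mem (⋃ n, D (2 * n)) with h | h
      · refine ⟨fun n => 2 * n + 1, fun m n hmn => by simpa using hmn, mem_of_superset h ?_⟩
        intro x hx hx'
        obtain ⟨m, hm⟩ := mem_iUnion.1 hx
        obtain ⟨n, hn⟩ := mem_iUnion.1 hx'
        exact Set.disjoint_left.1 (hD1 (show 2 * m ≠ 2 * n + 1 by omega)) hm hn
      · exact ⟨fun n => 2 * n, fun m n hmn => by simpa using hmn, h⟩
    have hS := hV _ hE
    obtain ⟨M, hM1, hM2⟩ := exists_ad
    have hch : ∀ t, ∃ i, (⋃ n ∈ φ '' M t, D n) ∈ U i := by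
      intro t
      have := hD3 _ ((hM1 t).image hφ.injOn)
      push Not at this
      obtain ⟨i, hi⟩ := this
      exact ⟨i, Ultrafilter.compl_notMem_iff.1 hi⟩
    choose c hc using hch
    have hinj : Function.Injective c := by
      intro s t hst
      by_contra hne
      have h1 := hc s
      have h2 := hc t
      rw [hst] at h1
      have h3 : (⋂ n ∈ M s ∩ M t, (D (φ n))ᶜ) ∈ U (c t) :=
        (biInter_mem (hM2 s t hne)).2 fun n _ => hD2 _ _
      obtain ⟨x, ⟨hx1, hx2⟩, hx3⟩ := Filter.nonempty_of_mem (f := (U (c t) : Filter ℕ))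
        (inter_mem (inter_mem h1 h2) h3)
      simp only [mem_iUnion, mem_image, exists_prop] at hx1 hx2
      obtain ⟨_, ⟨m, hm, rfl⟩, hxm⟩ := hx1
      obtain ⟨_, ⟨n, hn, rfl⟩, hxn⟩ := hx2
      have hmn : m = n := by
        by_contra hmn
        exact Set.disjoint_left.1 (hD1 (hφ.ne hmn)) hxm hxn
      subst hmn
      exact (mem_iInter₂.1 hx3 m ⟨hm, hn⟩) hxm
    have hsub : range c ⊆ {i | (⋃ n, D (φ n))ᶜ ∉ U i} := by
      rintro _ ⟨t, rfl⟩
      refine Ultrafilter.compl_notMem_iff.2 (mem_of_superset (hc t) ?_)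
      intro x hx
      simp only [mem_iUnion, mem_image, exists_prop] at hx
      obtain ⟨_, ⟨m, -, rfl⟩, hxm⟩ := hx
      exact mem_iUnion.2 ⟨m, hxm⟩
    exact not_countable_univ ((countable_of_injective_of_countable_image
        (s := univ) hinj.injOn (by simpa using hS.mono hsub)))

end Pool.Agent.P.MP_78c350_an
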