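import Pool.Agent.P.MP_78c350_an.Main

/-!
A free filter on the natural numbers that is not conglomerated although every positive set
contains continuum many pairwise almost disjoint positive sets.

Outline. With the independent family `X i` and the maximal filter `G` of `Main`, every point `x`
of the cube gets an ultrafilter `U x` that contains `X i` exactly when `x i` holds, and membership
of a fixed set in `U x` depends on countably many coordinates of `x`. The filter is the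
intersection of the `U x` over the finite graphs `x` of functions.
-/

open Filter Set

namespace Pool.Agent.P.MP_78c350_an

section Cube

variable {I : Type}

/-- The set `D` contains a dense open subset of the cube. -/
def Dns (D : Set (I → Bool)) : Prop :=
  ∀ (s : Finset I) (a : I → Bool), ∃ (t : Finset I) (b : I → Bool), s ⊆ t ∧ (∀ i ∈ s, b i = a i) ∧
    ∀ c : I → Bool, (∀ i ∈ t, c i = b i) → c ∈ D

/-- The filter of the sets that contain a dense open set. -/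
def dnsFilter (I : Type) : Filter (I → Bool) where
  sets := {D | Dns D}
  univ_sets := fun s a => ⟨s, a, Finset.Subset.refl _, fun _ _ => rfl, fun _ _ => trivial⟩
  sets_of_superset := fun h1 h2 s a => by
    obtain ⟨t, b, h3, h4, h5⟩ := h1 s a
    exact ⟨t, b, h3, h4, fun c hc => h2 (h5 c hc)⟩
  inter_sets := fun h1 h2 s a => by
    obtain ⟨t, b, h3, h4, h5⟩ := h1 s a
    obtain ⟨t', b', h6, h7, h8⟩ := h2 t b
    exact ⟨t', b', h3.trans h6, fun i hi => (h7 i (h3 hi)).trans (h4 i hi),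
      fun c hc => ⟨h5 c fun i hi => (hc i (h6 hi)).trans (h7 i hi), h8 c hc⟩⟩

lemma dnsFilter_neBot : (dnsFilter I).NeBot := by
  refine ⟨fun h => ?_⟩
  have h1 : (∅ : Set (I → Bool)) ∈ dnsFilter I := by rw [h]; exact mem_bot
  obtain ⟨t, b, -, -, h5⟩ := h1 ∅ fun _ => true
  exact h5 b fun _ _ => rfl

/-- Translation in the cube. -/
def flp (z a : I → Bool) : I → Bool := fun i => xor (a i) (z i)

lemma flp_flp (z a : I → Bool) : flp z (flp z a) = a := by
  funext i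
  simp [flp]

lemma Dns.flp {D : Set (I → Bool)} (h : Dns D) (z : I → Bool) : Dns (flp z ⁻¹' D) := by
  intro s a
  obtain ⟨t, b, h3, h4, h5⟩ := h s (MP_78c350_an.flp z a)
  refine ⟨t, MP_78c350_an.flp z b, h3, fun i hi => ?_, fun c hc => h5 _ fun i hi => ?_⟩
  · have := h4 i hi
    simp only [MP_78c350_an.flp] at this ⊢
    rw [this]; simp
  · have := hc i hi
    simp only [MP_78c350_an.flp] at this ⊢
    rw [this]; simp

/-- The graph of a point of the cube over a finite set of coordinates. -/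
noncomputable def gr (t : Finset I) (a : I → Bool) : Finset (I × Bool) :=
  t.map ⟨fun i => (i, a i), fun _ _ h => (Prod.mk.inj h).1⟩

lemma mem_gr {t : Finset I} {a : I → Bool} {p : I × Bool} :
    p ∈ gr t a ↔ p.1 ∈ t ∧ p.2 = a p.1 := by
  obtain ⟨i, b⟩ := p
  simp only [gr, Finset.mem_map, Function.Embedding.coeFn_mk, Prod.mk.injEq]
  constructor
  · rintro ⟨j, hj, rfl, rfl⟩
    exact ⟨hj, rfl⟩
  · rintro ⟨h1, h2⟩
    exact ⟨i, h1, rfl, h2.symm⟩

lemma cons_gr (t : Finset I) (a : I → Bool) : Cons (gr t a) := by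
  intro i h1 h2
  have a1 := (mem_gr.1 h1).2
  have a2 := (mem_gr.1 h2).2
  simp only at a1 a2
  rw [← a1] at a2
  exact Bool.noConfusion a2

lemma gr_mono {t t' : Finset I} (h : t ⊆ t') (a : I → Bool) : gr t a ⊆ gr t' a :=
  fun _ hp => mem_gr.2 ⟨h (mem_gr.1 hp).1, (mem_gr.1 hp).2⟩

lemma gr_congr {t : Finset I} {a b : I → Bool} (h : ∀ i ∈ t, a i = b i) : gr t a = gr t b := by
  ext p
  simp only [mem_gr]
  exact ⟨fun H => ⟨H.1, H.2.trans (h _ H.1)⟩, fun H => ⟨H.1, H.2.trans (h _ H.1).symm⟩⟩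

variable {X : I → Set ℕ} {G : Filter ℕ}

variable (X G) in
/-- The points of the cube at which `Y` is forced, using coordinates of `C` only. -/
def Op (C : Set I) (Y : Set ℕ) : Set (I → Bool) :=
  {a | ∃ t : Finset I, (t : Set I) ⊆ C ∧ Y ∈ G ⊓ 𝓟 (cell X (gr t a))}

lemma Op_mono {C C' : Set I} {Y Z : Set ℕ} (hC : C ⊆ C') (h : Y ⊆ Z) :
    Op X G C Y ⊆ Op X G C' Z := fun _ ⟨t, h1, h2⟩ => ⟨t, h1.trans hC, mem_of_superset h2 h⟩

lemma Op_inter {Y Z : Set ℕ} : Op X G univ Y ∩ Op X G univ Z ⊆ Op X G univ (Y ∩ Z) := by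
  classical
  rintro a ⟨⟨t, -, h1⟩, ⟨t', -, h2⟩⟩
  exact ⟨t ∪ t', subset_univ _, inter_mem
    (le_of_subset (gr_mono Finset.subset_union_left a) h1)
    (le_of_subset (gr_mono Finset.subset_union_right a) h2)⟩

lemma Op_congr {C : Set I} {Y : Set ℕ} {a b : I → Bool} (h : ∀ i ∈ C, a i = b i)
    (ha : a ∈ Op X G C Y) : b ∈ Op X G C Y := by
  obtain ⟨t, h1, h2⟩ := ha
  refine ⟨t, h1, ?_⟩
  rwa [← gr_congr fun i hi => h i (h1 hi)]

variable (hG1 : ∀ h, Cons h → (G ⊓ 𝓟 (cell X h)).NeBot)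
  (hG2 : ∀ Y : Set ℕ, (G ⊓ 𝓟 Y).NeBot → ∃ h, Cons h ∧ Y ∈ G ⊓ 𝓟 (cell X h))

include hG1 in
lemma Op_empty : Op X G univ ∅ = ∅ := by
  ext a
  refine ⟨fun ⟨t, _, h⟩ => ?_, fun h => h.elim⟩
  have := hG1 _ (cons_gr t a)
  exact absurd h (Filter.empty_notMem _)

include hG1 hG2 in
/-- Countably many coordinates decide a set on a dense open part of the cube. -/
lemma exists_support (Y : Set ℕ) :
    ∃ C : Set I, C.Countable ∧ Dns (Op X G C Y ∪ Op X G C Yᶜ) := by
  classical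
  have hch : ∀ n : ℕ, ∃ a : Finset (I × Bool),
      (∃ h, Dec X G h Y ∧ n ∈ cell X h) → Dec X G a Y ∧ n ∈ cell X a := by
    intro n
    by_cases hn : ∃ h, Dec X G h Y ∧ n ∈ cell X h
    · obtain ⟨h, hh⟩ := hn
      exact ⟨h, fun _ => hh⟩
    · exact ⟨∅, fun H => (hn H).elim⟩
  choose k hk using hch
  refine ⟨⋃ n, Prod.fst '' (k n : Set (I × Bool)),
    countable_iUnion fun n => ((k n).finite_toSet.image _).countable, fun s a => ?_⟩
  obtain ⟨h, hsub, hh, hd⟩ := dec_dense hG1 hG2 Y (cons_gr s a)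
  have := hG1 _ hh
  obtain ⟨n, hn⟩ := Filter.nonempty_of_mem (f := G ⊓ 𝓟 (cell X h))
      (mem_inf_of_right (mem_principal_self _))
  obtain ⟨hd', hn'⟩ := hk n ⟨h, hd, hn⟩
  have key : ∀ p : I × Bool, n ∈ lit X p → p.2 = decide (n ∈ X p.1) := by
    rintro ⟨i, b⟩ hp
    cases b <;> simp_all [lit]
  refine ⟨s ∪ (k n).image Prod.fst, fun i => decide (n ∈ X i), Finset.subset_union_left,
    fun i hi => ?_, fun c hc => ?_⟩
  · exact (key (i, a i) (mem_cell.1 hn _ (hsub (mem_gr.2 ⟨hi, rfl⟩)))).symm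
  · have hsub' : k n ⊆ gr ((k n).image Prod.fst) c := by
      intro p hp
      have hp1 : p.1 ∈ (k n).image Prod.fst := Finset.mem_image_of_mem _ hp
      exact mem_gr.2 ⟨hp1, (key p (mem_cell.1 hn' p hp)).trans
        (hc _ (Finset.mem_union_right _ hp1)).symm⟩
    have hC : (((k n).image Prod.fst : Finset I) : Set I) ⊆
        ⋃ n, Prod.fst '' (k n : Set (I × Bool)) := by
      rw [Finset.coe_image]
      exact subset_iUnion (fun n => Prod.fst '' (k n : Set (I × Bool))) n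
    rcases hd'.mono hsub' with h1 | h1
    · exact Or.inl ⟨_, hC, h1⟩
    · exact Or.inr ⟨_, hC, h1⟩

include hG1 hG2 in
/-- The ultrafilters attached to the points of the cube. -/
lemma exists_system : ∃ U : (I → Bool) → Ultrafilter ℕ, (∀ x, (U x : Filter ℕ) ≤ G) ∧
    (∀ x i, X i ∈ U x ↔ x i = true) ∧
    ∀ Y : Set ℕ, ∃ C : Set I, C.Countable ∧
      ∀ x y, (∀ i ∈ C, x i = y i) → Y ∈ U x → Y ∈ U y := by
  classical
  have := dnsFilter_neBot (I := I)
  obtain ⟨W, hW⟩ := Filter.exists_ultrafilter_le (dnsFilter I)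
  have hmono : ∀ (z : I → Bool) {C C' : Set I} {Y Z : Set ℕ}, C ⊆ C' → Y ⊆ Z →
      flp z ⁻¹' Op X G C Y ∈ W → flp z ⁻¹' Op X G C' Z ∈ W := fun z _ _ _ _ h1 h2 h3 =>
    W.mem_coe.1 (mem_of_superset (W.mem_coe.2 h3) (preimage_mono (Op_mono h1 h2)))
  have hinter : ∀ (z : I → Bool) {Y Z : Set ℕ}, flp z ⁻¹' Op X G univ Y ∈ W →
      flp z ⁻¹' Op X G univ Z ∈ W → flp z ⁻¹' Op X G univ (Y ∩ Z) ∈ W := by
    intro z Y Z h1 h2
    have h3 := inter_mem (W.mem_coe.2 h1) (W.mem_coe.2 h2)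
    rw [← preimage_inter] at h3
    exact W.mem_coe.1 (mem_of_superset h3 (preimage_mono Op_inter))
  have hdisj : ∀ (z : I → Bool) (Y : Set ℕ), flp z ⁻¹' Op X G univ Y ∈ W →
      flp z ⁻¹' Op X G univ Yᶜ ∈ W → False := by
    intro z Y h1 h2
    have h3 := hinter z h1 h2
    rw [inter_compl_self, Op_empty hG1, preimage_empty] at h3
    exact W.empty_notMem h3
  have hor : ∀ (z : I → Bool) (Y : Set ℕ) (C : Set I), Dns (Op X G C Y ∪ Op X G C Yᶜ) →
      flp z ⁻¹' Op X G C Y ∈ W ∨ flp z ⁻¹' Op X G C Yᶜ ∈ W := by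
    intro z Y C hC
    rw [← Ultrafilter.union_mem_iff, ← preimage_union]
    exact hW (hC.flp z)
  have hG : ∀ (z : I → Bool) {Y : Set ℕ}, Y ∈ G → flp z ⁻¹' Op X G univ Y ∈ W := by
    intro z Y hY
    have : Op X G univ Y = univ :=
      eq_univ_of_forall fun a => ⟨∅, subset_univ _, mem_inf_of_left hY⟩
    rw [this, preimage_univ]
    exact W.mem_coe.1 univ_mem
  have hex : ∀ z : I → Bool, ∃ U : Ultrafilter ℕ, ∀ Y, Y ∈ U ↔ flp z ⁻¹' Op X G univ Y ∈ W := by
    intro z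
    obtain ⟨H, hH⟩ : ∃ H : Filter ℕ, ∀ Y, Y ∈ H ↔ flp z ⁻¹' Op X G univ Y ∈ W :=
      ⟨{ sets := {Y | flp z ⁻¹' Op X G univ Y ∈ W}
         univ_sets := hG z univ_mem
         sets_of_superset := fun h1 h2 => hmono z Subset.rfl h2 h1
         inter_sets := fun h1 h2 => hinter z h1 h2 }, fun _ => Iff.rfl⟩
    refine ⟨Ultrafilter.ofComplNotMemIff H fun Y => ?_, fun Y => ?_⟩
    · rw [hH, hH]
      refine ⟨fun h => ?_, fun h h' => hdisj z Y h h'⟩
      obtain ⟨C, -, hC⟩ := exists_support hG1 hG2 Y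
      rcases hor z Y C hC with h1 | h1
      · exact hmono z (subset_univ _) Subset.rfl h1
      · exact (h (hmono z (subset_univ _) Subset.rfl h1)).elim
    · rw [← hH, ← Ultrafilter.mem_coe]
      rfl
  choose U hU using hex
  have hw : ∀ i, ∃ b : Bool, {a : I → Bool | a i = b} ∈ W := by
    intro i
    rcases W.mem_or_compl_mem {a : I → Bool | a i = true} with h | h
    · exact ⟨true, h⟩
    · exact ⟨false, mem_of_superset h fun a ha => by simpa using ha⟩
  choose w hw using hw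
  have hlit : ∀ x i, lit X (i, x i) ∈ U (flp w x) := by
    intro x i
    rw [hU]
    refine W.mem_coe.1 (mem_of_superset (W.mem_coe.2 (hw i)) fun a ha => ?_)
    rw [mem_preimage]
    refine ⟨{i}, subset_univ _, lit_mem (mem_gr.2 ⟨by simp, ?_⟩)⟩
    have ha' : a i = w i := ha
    simp only [flp, ha']
    cases w i <;> cases x i <;> rfl
  refine ⟨fun x => U (flp w x), fun x Y hY => (hU _ Y).2 (hG _ hY), fun x i => ?_, fun Y => ?_⟩
  · have h1 := hlit x i
    cases hx : x i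
    · rw [hx] at h1
      simp only [lit, Bool.false_eq_true, if_false] at h1
      simpa using Ultrafilter.compl_mem_iff_notMem.1 h1
    · rw [hx] at h1
      simpa [lit] using h1
  · obtain ⟨C, hC1, hC2⟩ := exists_support hG1 hG2 Y
    refine ⟨C, hC1, fun x y hxy hx => ?_⟩
    rcases hor (flp w x) Y C hC2 with h1 | h1
    · refine (hU _ Y).2 (hmono _ (subset_univ C) Subset.rfl
        (W.mem_coe.1 (mem_of_superset (W.mem_coe.2 h1) fun a ha => ?_)))
      rw [mem_preimage] at ha ⊢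
      refine Op_congr (fun i hi => ?_) ha
      simp only [flp, hxy i hi]
    · exact (hdisj _ Y ((hU _ Y).1 hx) (hmono _ (subset_univ _) Subset.rfl h1)).elim

end Cube

/-- Countably many dense properties that pass to almost subsets can be met at once. -/
lemma diag {κ : Type} [Countable κ] (Q : κ → Set ℕ → Prop)
    (h1 : ∀ k M, M.Infinite → ∃ M' ⊆ M, M'.Infinite ∧ Q k M')
    (h2 : ∀ k M M', Q k M → (M' \ M).Finite → Q k M') {M : Set ℕ} (hM : M.Infinite) :
    ∃ M' ⊆ M, M'.Infinite ∧ ∀ k, Q k M' := by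
  obtain ⟨f, hf⟩ := exists_injective_nat κ
  have h3 : ∀ (n : ℕ) (M : {M : Set ℕ // M.Infinite}), ∃ M' : {M : Set ℕ // M.Infinite},
      M'.1 ⊆ M.1 ∧ ∀ k, f k = n → Q k M'.1 := by
    intro n M
    by_cases hn : ∃ k, f k = n
    · obtain ⟨k, rfl⟩ := hn
      obtain ⟨M', a, b, c⟩ := h1 k M.1 M.2
      exact ⟨⟨M', b⟩, a, fun j hj => hf hj ▸ c⟩
    · exact ⟨M, Subset.rfl, fun k hk => (hn ⟨k, hk⟩).elim⟩
  choose g hg1 hg2 using h3
  let S : ℕ → {M : Set ℕ // M.Infinite} := fun n => Nat.rec ⟨M, hM⟩ (fun n T => g n T) n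
  have hS : Antitone fun n => (S n).1 := antitone_nat_of_succ_le fun n => hg1 n (S n)
  obtain ⟨φ, hφ1, hφ2⟩ := Filter.extraction_forall_of_frequently (P := fun n k => k ∈ (S n).1)
    fun n => Nat.frequently_atTop_iff_infinite.2 (S n).2
  refine ⟨range φ, ?_, infinite_range_of_injective hφ1.injective, fun k => ?_⟩
  · rintro _ ⟨n, rfl⟩
    exact hS (Nat.zero_le n) (hφ2 n)
  · refine h2 k (S (f k + 1)).1 _ (hg2 (f k) (S (f k)) k rfl) ?_
    refine ((Set.finite_lt_nat (f k + 1)).image φ).subset ?_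
    rintro _ ⟨⟨n, rfl⟩, hn⟩
    refine ⟨n, ?_, rfl⟩
    by_contra hc
    exact hn (hS (not_lt.1 hc) (hφ2 n))

/-- Ultrafilters indexed by finite sets with countable dependence never give a conglomerated
filter. -/
lemma not_congl {I : Type} (u : Finset I → Ultrafilter ℕ) (P : Set (Finset I))
    (hu : ∀ Y : Set ℕ, ∃ C : Set I, C.Countable ∧
      ∀ x y : Finset I, (∀ i ∈ C, i ∈ x ↔ i ∈ y) → Y ∈ u x → Y ∈ u y)
    (D : ℕ → Set ℕ) (hD1 : Pairwise fun m n => Disjoint (D m) (D n))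
    (hD2 : ∀ n, ∀ x ∈ P, (D n)ᶜ ∈ u x) :
    ∃ M : Set ℕ, M.Infinite ∧ ∀ x ∈ P, (⋃ n ∈ M, D n) ∉ u x := by
  classical
  have halm : ∀ x ∈ P, ∀ M M' : Set ℕ, (⋃ n ∈ M, D n) ∉ u x → (M' \ M).Finite →
      (⋃ n ∈ M', D n) ∉ u x := by
    intro x hx M M' h1 h2
    rw [← Ultrafilter.compl_mem_iff_notMem] at h1 ⊢
    have h3 : (⋂ n ∈ M' \ M, (D n)ᶜ) ∈ u x := (biInter_mem h2).2 fun n _ => hD2 n x hx
    refine mem_of_superset (inter_mem h1 h3) ?_
    rintro k ⟨hk1, hk2⟩ hk3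
    obtain ⟨n, hn1, hn2⟩ := mem_iUnion₂.1 hk3
    by_cases hn : n ∈ M
    · exact hk1 (mem_iUnion₂.2 ⟨n, hn, hn2⟩)
    · exact mem_iInter₂.1 hk2 n ⟨hn1, hn⟩ hn2
  have hone : ∀ (s : Finset I) (M : Set ℕ), M.Infinite →
      ∃ M' ⊆ M, M'.Infinite ∧ (⋃ n ∈ M', D n) ∉ u s := by
    intro s M hM
    let f := hM.natEmbedding
    have hf : Function.Injective fun n => (f n : ℕ) := Subtype.val_injective.comp f.injective
    by_cases h : (⋃ n ∈ range fun n => (f (2 * n) : ℕ), D n) ∈ u s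
    · refine ⟨range fun n => (f (2 * n + 1) : ℕ), ?_, infinite_range_of_injective ?_, fun h' => ?_⟩
      · rintro _ ⟨n, rfl⟩
        exact (f _).2
      · intro m n hmn
        have := hf hmn
        omega
      · obtain ⟨k, hk1, hk2⟩ := Filter.nonempty_of_mem (f := (u s : Filter ℕ)) (inter_mem h h')
        obtain ⟨_, ⟨m, rfl⟩, hm⟩ := mem_iUnion₂.1 hk1
        obtain ⟨_, ⟨n, rfl⟩, hn⟩ := mem_iUnion₂.1 hk2
        refine Set.disjoint_left.1 (hD1 fun hmn => ?_) hm hn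
        have := hf hmn
        omega
    · refine ⟨_, ?_, infinite_range_of_injective ?_, h⟩
      · rintro _ ⟨n, rfl⟩
        exact (f _).2
      · intro m n hmn
        have := hf hmn
        omega
  have hind : ∀ (n : ℕ) (s : Finset I) (M : Set ℕ), M.Infinite → ∃ M' ⊆ M, M'.Infinite ∧
      ∀ x ∈ P, s ⊆ x → x.card ≤ s.card + n → (⋃ n ∈ M', D n) ∉ u x := by
    intro n
    induction n with
    | zero =>
      intro s M hM
      obtain ⟨M', a, b, c⟩ := hone s M hM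
      refine ⟨M', a, b, fun x _ h1 h2 => ?_⟩
      rwa [← Finset.eq_of_subset_of_card_le h1 h2]
    | succ n ih =>
      intro s M hM
      obtain ⟨M₀, a, b, c⟩ := hone s M hM
      obtain ⟨C, hC1, hC2⟩ := hu (⋃ n ∈ M₀, D n)
      have := hC1.to_subtype
      obtain ⟨M', a', b', c'⟩ := diag (κ := C) (fun i M => ∀ x ∈ P, insert i.1 s ⊆ x →
          x.card ≤ (insert i.1 s).card + n → (⋃ n ∈ M, D n) ∉ u x)
        (fun i M hM => ih _ M hM)
        (fun i M M' h1 h2 x hx h3 h4 => halm x hx M M' (h1 x hx h3 h4) h2) b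
      refine ⟨M', a'.trans a, b', fun x hx h1 h2 h3 => ?_⟩
      by_cases hi : ∃ i ∈ C, i ∈ x ∧ i ∉ s
      · obtain ⟨i, hi1, hi2, hi3⟩ := hi
        refine c' ⟨i, hi1⟩ x hx (Finset.insert_subset hi2 h1) ?_ h3
        rw [Finset.card_insert_of_notMem hi3]
        omega
      · refine c (hC2 x s (fun i hiC => ⟨fun hix => ?_, fun his => h1 his⟩)
          (mem_of_superset h3 (biUnion_subset_biUnion_left a')))
        by_contra his
        exact hi ⟨i, hiC, hix, his⟩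
  obtain ⟨M, -, b, c⟩ := diag (κ := ℕ) (fun n M => ∀ x ∈ P, ∅ ⊆ x →
      x.card ≤ (∅ : Finset I).card + n → (⋃ n ∈ M, D n) ∉ u x)
    (fun n M hM => hind n ∅ M hM)
    (fun i M M' h1 h2 x hx h3 h4 => halm x hx M M' (h1 x hx h3 h4) h2) infinite_univ
  exact ⟨M, b, fun x hx => c x.card x hx (Finset.empty_subset _) (by simp)⟩

theorem main_nowhere : ∃ F : Filter ℕ, ∅ ∉ F ∧ (∀ A : Set ℕ, Aᶜ.Finite → A ∈ F) ∧
    (¬ ∃ D : ℕ → Set ℕ, (Pairwise fun m n => Disjoint (D m) (D n)) ∧ (∀ n, (D n)ᶜ ∈ F) ∧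
      ∀ M : Set ℕ, M.Infinite → (⋃ n ∈ M, D n)ᶜ ∉ F) ∧
    ∀ A : Set ℕ, Aᶜ ∉ F → ∃ B : Set ℕ → Set ℕ, (∀ t, B t ⊆ A) ∧ (∀ t, (B t)ᶜ ∉ F) ∧
      Pairwise fun s t => (B s ∩ B t)ᶜ ∈ F := by
  classical
  obtain ⟨X, hX⟩ := exists_indep
  obtain ⟨G, hG0, hG1, hG2⟩ := exists_max hX
  obtain ⟨U, hU0, hU1, hU2⟩ := exists_system hG1 hG2
  obtain ⟨e⟩ : Nonempty (Set ℕ ≃ Set ℕ × Set ℕ) := Cardinal.eq.1 (by simp)
  let u : Finset (Set ℕ) → Ultrafilter ℕ := fun x => U fun i => decide (i ∈ x)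
  have hu1 : ∀ x i, X i ∈ u x ↔ i ∈ x := fun x i => by simp [u, hU1]
  have hu2 : ∀ Y : Set ℕ, ∃ C : Set (Set ℕ), C.Countable ∧
      ∀ x y : Finset (Set ℕ), (∀ i ∈ C, i ∈ x ↔ i ∈ y) → Y ∈ u x → Y ∈ u y := by
    intro Y
    obtain ⟨C, h1, h2⟩ := hU2 Y
    exact ⟨C, h1, fun x y hxy => h2 _ _ fun i hi => by simp [hxy i hi]⟩
  let P : Set (Finset (Set ℕ)) := {x | ∀ p ∈ x, ∀ q ∈ x, (e p).1 = (e q).1 → p = q}
  have hmem : ∀ Y : Set ℕ, Y ∈ (⨆ x ∈ P, (u x : Filter ℕ)) ↔ ∀ x ∈ P, Y ∈ u x := fun Y => by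
    simp [Filter.mem_iSup]
  refine ⟨⨆ x ∈ P, (u x : Filter ℕ), ?_, ?_, ?_, ?_⟩
  · rw [hmem]
    intro h
    exact (u ∅).empty_notMem (h ∅ fun p hp => by simp at hp)
  · intro Y hY
    rw [hmem]
    exact fun x _ => hU0 _ (hG0 hY)
  · rintro ⟨D, hD1, hD2, hD3⟩
    simp only [hmem] at hD2 hD3
    obtain ⟨M, hM1, hM2⟩ := not_congl u P hu2 D hD1 hD2
    exact hD3 M hM1 fun x hx => Ultrafilter.compl_mem_iff_notMem.2 (hM2 x hx)
  · intro A hA
    rw [hmem] at hA
    push Not at hA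
    obtain ⟨x, hx, hAx⟩ := hA
    rw [Ultrafilter.compl_notMem_iff] at hAx
    obtain ⟨C, hC1, hC2⟩ := hu2 A
    obtain ⟨α, hα⟩ : ∃ α : Set ℕ, α ∉ (fun i => (e i).1) '' (C ∪ (x : Set (Set ℕ))) := by
      by_contra hc
      push Not at hc
      exact not_countable_univ
        (((hC1.union x.finite_toSet.countable).image fun i => (e i).1).mono fun a _ => hc a)
    have hα' : ∀ i, (e i).1 = α → i ∉ C ∧ i ∉ x := fun i hi =>
      ⟨fun h => hα ⟨i, Or.inl h, hi⟩, fun h => hα ⟨i, Or.inr h, hi⟩⟩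
    refine ⟨fun t => A ∩ X (e.symm (α, t)), fun t => inter_subset_left, fun t => ?_,
      fun s t hst => ?_⟩
    · rw [hmem]
      intro h
      have hP : insert (e.symm (α, t)) x ∈ P := by
        intro p hp q hq hpq
        rcases Finset.mem_insert.1 hp with rfl | hp' <;> rcases Finset.mem_insert.1 hq with rfl | hq'
        · rfl
        · exact ((hα' q (by simpa using hpq.symm)).2 hq').elim
        · exact ((hα' p (by simpa using hpq)).2 hp').elim
        · exact hx p hp' q hq' hpq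
      refine Ultrafilter.compl_mem_iff_notMem.1 (h _ hP) (inter_mem (hC2 x _ (fun i hi => ?_) hAx)
        ((hu1 _ _).2 (Finset.mem_insert_self _ _)))
      rw [Finset.mem_insert]
      refine ⟨Or.inr, fun h => h.resolve_left ?_⟩
      rintro rfl
      exact (hα' _ (by simp)).1 hi
    · refine (hmem _).2 fun y hy => ?_
      rw [Ultrafilter.compl_mem_iff_notMem]
      intro h
      have h1 : e.symm (α, s) ∈ y :=
        (hu1 _ _).1 (mem_of_superset h fun k hk => hk.1.2)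
      have h2 : e.symm (α, t) ∈ y :=
        (hu1 _ _).1 (mem_of_superset h fun k hk => hk.2.2)
      have h3 := hy _ h1 _ h2 (by simp)
      exact hst (Prod.mk.inj (e.symm.injective h3)).2

end Pool.Agent.P.MP_78c350_an
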